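import Pool.Agent.Helper399.LaurentNoSplit

/-! MODULE E: the maximal algebraic extension of `k((y))` not splitting `(y, x)`. -/

set_option autoImplicit false

namespace SF

open IntermediateField

section zorn

variable {R Rb : Type*} [Field R] [Field Rb] [Algebra R Rb]

/-- `Sp` for intermediate fields, elementwise. -/
theorem Sp_iff_mem (E : IntermediateField R Rb) (a x : E) :
    Sp E a x ↔ ∃ g0 ∈ E, ∃ g1 ∈ E, ∃ g2 ∈ E, N3 (a : Rb) g0 g1 g2 = (x : Rb) := by
  constructor
  · rintro ⟨g0, g1, g2, h⟩
    refine ⟨g0, g0.2, g1, g1.2, g2, g2.2, ?_⟩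
    rw [← h]
    exact (N3_map (algebraMap E Rb) a g0 g1 g2).symm
  · rintro ⟨g0, h0, g1, h1, g2, h2, h⟩
    refine ⟨⟨g0, h0⟩, ⟨g1, h1⟩, ⟨g2, h2⟩, ?_⟩
    apply (algebraMap E Rb).injective
    rw [N3_map]
    exact h

theorem exists_maximal_not_Sp {a x : R} (h : ¬ Sp R a x) :
    ∃ E : IntermediateField R Rb, ¬ Sp E (algebraMap R E a) (algebraMap R E x) ∧
      ∀ E' : IntermediateField R Rb, E < E' → Sp E' (algebraMap R E' a) (algebraMap R E' x) := by
  let P : Set (IntermediateField R Rb) := {E | ¬ Sp E (algebraMap R E a) (algebraMap R E x)}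
  have hbot : (⊥ : IntermediateField R Rb) ∈ P := by
    intro hb
    rw [Sp_iff_mem] at hb
    obtain ⟨g0, h0, g1, h1, g2, h2, hg⟩ := hb
    obtain ⟨f0, rfl⟩ := IntermediateField.mem_bot.1 h0
    obtain ⟨f1, rfl⟩ := IntermediateField.mem_bot.1 h1
    obtain ⟨f2, rfl⟩ := IntermediateField.mem_bot.1 h2
    apply h
    refine ⟨f0, f1, f2, ?_⟩
    apply (algebraMap R Rb).injective
    rw [N3_map]
    exact hg
  obtain ⟨E, -, hE⟩ := zorn_le_nonempty₀ P (by
    intro c hc hchain y hy
    refine ⟨sSup c, ?_, fun z hz => le_sSup hz⟩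
    intro hs
    rw [Sp_iff_mem] at hs
    obtain ⟨g0, h0, g1, h1, g2, h2, hg⟩ := hs
    have : Nonempty c := ⟨⟨y, hy⟩⟩
    have hdir : Directed (· ≤ ·) (fun E : c => (E : IntermediateField R Rb)) :=
      hchain.directedOn.directed_val
    have hcoe : ((sSup c : IntermediateField R Rb) : Set Rb) =
        ⋃ E : c, ((E : IntermediateField R Rb) : Set Rb) := by
      rw [sSup_eq_iSup']
      exact IntermediateField.coe_iSup_of_directed hdir
    have hm : ∀ g ∈ (sSup c : IntermediateField R Rb), ∃ E : c, g ∈ (E : IntermediateField R Rb) := by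
      intro g hg
      have : g ∈ ((sSup c : IntermediateField R Rb) : Set Rb) := hg
      rw [hcoe] at this
      simpa using this
    obtain ⟨E0, hE0⟩ := hm g0 h0
    obtain ⟨E1, hE1⟩ := hm g1 h1
    obtain ⟨E2, hE2⟩ := hm g2 h2
    obtain ⟨F, hF0, hF1⟩ := hdir E0 E1
    obtain ⟨F', hF', hF2⟩ := hdir F E2
    have hFP : (F' : IntermediateField R Rb) ∈ P := hc F'.2
    apply hFP
    rw [Sp_iff_mem]
    exact ⟨g0, hF' (hF0 hE0), g1, hF' (hF1 hE1), g2, hF2 hE2, hg⟩) ⊥ hbot
  refine ⟨E, hE.prop, ?_⟩
  intro E' hlt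
  by_contra hE'
  exact absurd (hE.le_of_ge hE' hlt.le) (not_le_of_gt hlt)

end zorn

section galois

/-- If every nontrivial finite extension splits `(a,x)` but `E` does not, then all finite
extensions of `E` have degree a power of 3. -/
theorem finrank_pow_three {E : Type*} [Field E] [CharZero E] {a x : E} (hE : ¬ Sp E a x)
    (F : Type*) [Field F] [Algebra E F] [FiniteDimensional E F]
    (h : ∀ N : IntermediateField E (normalClosure E F (AlgebraicClosure F)),
      Module.finrank E N ≠ 1 → Sp N (algebraMap E N a) (algebraMap E N x)) :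
    ∃ j : ℕ, Module.finrank E F = 3 ^ j := by
  classical
  let N := normalClosure E F (AlgebraicClosure F)
  have : FiniteDimensional E N := inferInstance
  have : Normal E N := inferInstance
  have : Algebra.IsSeparable E N := inferInstance
  have : IsGalois E N := IsGalois.mk
  have : Fact (Nat.Prime 3) := ⟨Nat.prime_three⟩
  have : Finite (N ≃ₐ[E] N) := inferInstance
  let P : Sylow 3 (N ≃ₐ[E] N) := default
  have hcard : Nat.card (N ≃ₐ[E] N) = Module.finrank E N := IsGalois.card_aut_eq_finrank E N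
  have h1 : Module.finrank (fixedField (P : Subgroup (N ≃ₐ[E] N))) N = Nat.card P :=
    finrank_fixedField_eq_card (P : Subgroup (N ≃ₐ[E] N))
  have h2 : Module.finrank E (fixedField (P : Subgroup (N ≃ₐ[E] N))) *
      Module.finrank (fixedField (P : Subgroup (N ≃ₐ[E] N))) N = Module.finrank E N :=
    Module.finrank_mul_finrank E _ N
  have h3 : (P : Subgroup (N ≃ₐ[E] N)).index =
      Module.finrank E (fixedField (P : Subgroup (N ≃ₐ[E] N))) := by
    have h4 := (P : Subgroup (N ≃ₐ[E] N)).card_mul_index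
    rw [h1] at h2
    rw [hcard, ← h2, mul_comm] at h4
    exact Nat.eq_of_mul_eq_mul_right Nat.card_pos h4
  have h5 : ¬ 3 ∣ (P : Subgroup (N ≃ₐ[E] N)).index := P.not_dvd_index
  have h6 : Module.finrank E (fixedField (P : Subgroup (N ≃ₐ[E] N))) = 1 := by
    by_contra h7
    have h8 := h (fixedField (P : Subgroup (N ≃ₐ[E] N))) h7
    apply hE
    refine Sp.descend (L' := fixedField (P : Subgroup (N ≃ₐ[E] N))) ?_ h8
    rw [← h3]
    exact ((Nat.Prime.coprime_iff_not_dvd Nat.prime_three).2 h5).symm
  obtain ⟨n, hn⟩ := IsPGroup.iff_card.1 P.isPGroup'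
  have h9 : Module.finrank E N = 3 ^ n := by
    rw [← h2, h6, h1, one_mul]
    exact hn
  have h10 : Module.finrank E F ∣ Module.finrank E N := by
    let : Algebra F N := inferInstance
    have : IsScalarTower E F N := inferInstance
    exact ⟨Module.finrank F N, (Module.finrank_mul_finrank E F N).symm⟩
  rw [h9] at h10
  obtain ⟨j, _, hj⟩ := (Nat.dvd_prime_pow Nat.prime_three).1 h10
  exact ⟨j, hj⟩

end galois

section main

variable {R Rb : Type*} [Field R] [Field Rb] [Algebra R Rb] [IsAlgClosed Rb]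
  [Algebra.IsAlgebraic R Rb]

/-- A nontrivial algebraic extension of a maximal non-splitting `E` splits. -/
theorem Sp_of_finrank_ne_one {a x : R} {E : IntermediateField R Rb}
    (hE : ∀ E' : IntermediateField R Rb, E < E' → Sp E' (algebraMap R E' a) (algebraMap R E' x))
    (F : Type*) [Field F] [Algebra E F] [FiniteDimensional E F] (hF : Module.finrank E F ≠ 1) :
    Sp F (algebraMap E F (algebraMap R E a)) (algebraMap E F (algebraMap R E x)) := by
  let f : F →ₐ[E] Rb := IsAlgClosed.lift
  let G : IntermediateField E Rb := f.fieldRange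
  let G' : IntermediateField R Rb := G.restrictScalars R
  have hle : E ≤ G' := by
    intro r hr
    exact G.algebraMap_mem ⟨r, hr⟩
  have hne : E ≠ G' := by
    intro he
    apply hF
    have hsurj : Function.Surjective (algebraMap E F) := by
      intro b
      have h1 : f b ∈ G' := ⟨b, rfl⟩
      rw [← he] at h1
      refine ⟨⟨f b, h1⟩, ?_⟩
      apply f.toRingHom.injective
      exact f.commutes ⟨f b, h1⟩
    let e : E ≃ₗ[E] F := LinearEquiv.ofBijective (Algebra.linearMap E F)
      ⟨(algebraMap E F).injective, hsurj⟩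
    rw [← e.finrank_eq, Module.finrank_self]
  obtain ⟨g0, g1, g2, hg⟩ := hE G' (lt_of_le_of_ne hle hne)
  obtain ⟨f0, hf0⟩ := g0.2
  obtain ⟨f1, hf1⟩ := g1.2
  obtain ⟨f2, hf2⟩ := g2.2
  refine ⟨f0, f1, f2, ?_⟩
  apply f.toRingHom.injective
  rw [N3_map]
  have h1 := congrArg (algebraMap G' Rb) hg
  rw [N3_map] at h1
  have e0 : f.toRingHom f0 = algebraMap G' Rb g0 := hf0
  have e1 : f.toRingHom f1 = algebraMap G' Rb g1 := hf1
  have e2 : f.toRingHom f2 = algebraMap G' Rb g2 := hf2
  have ea : f.toRingHom (algebraMap E F (algebraMap R E a)) =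
      algebraMap G' Rb (algebraMap R G' a) := f.commutes _
  have ex : f.toRingHom (algebraMap E F (algebraMap R E x)) =
      algebraMap G' Rb (algebraMap R G' x) := f.commutes _
  rw [e0, e1, e2, ea, ex]
  exact h1

end main

/-- MODULE E. -/
theorem exists_E {k : Type} [Field k] [CharZero k] {x : k} (hx : ¬ ∃ c : k, c ^ 3 = x) :
    ∃ E : IntermediateField (LaurentSeries k) (AlgebraicClosure (LaurentSeries k)),
      ¬ Sp E (algebraMap (LaurentSeries k) E (HahnSeries.single 1 1))
        (algebraMap (LaurentSeries k) E (HahnSeries.C x)) ∧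
      (∀ E' : IntermediateField (LaurentSeries k) (AlgebraicClosure (LaurentSeries k)), E < E' →
        Sp E' (algebraMap (LaurentSeries k) E' (HahnSeries.single 1 1))
          (algebraMap (LaurentSeries k) E' (HahnSeries.C x))) ∧
      (¬ ∃ c : E, c ^ 3 = algebraMap (LaurentSeries k) E (HahnSeries.single 1 1)) ∧
      ∀ (F : Type) [Field F] [Algebra E F] [FiniteDimensional E F],
        (∃ j : ℕ, Module.finrank E F = 3 ^ j) ∧
        (Module.finrank E F ≠ 1 →
          Sp F (algebraMap E F (algebraMap (LaurentSeries k) E (HahnSeries.single 1 1)))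
            (algebraMap E F (algebraMap (LaurentSeries k) E (HahnSeries.C x)))) := by
  obtain ⟨E, hE, hmax⟩ := exists_maximal_not_Sp (Rb := AlgebraicClosure (LaurentSeries k))
    (laurent_not_Sp hx)
  have : CharZero (LaurentSeries k) := charZero_of_injective_algebraMap
    (algebraMap k (LaurentSeries k)).injective
  have : CharZero E := charZero_of_injective_algebraMap (algebraMap (LaurentSeries k) E).injective
  refine ⟨E, hE, hmax, ?_, ?_⟩
  · rintro ⟨c, hc⟩
    apply hE
    have hy : (algebraMap (LaurentSeries k) E (HahnSeries.single 1 1)) ≠ 0 := by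
      rw [Ne, map_eq_zero]
      exact HahnSeries.single_ne_zero one_ne_zero
    have hc0 : c ≠ 0 := by
      rintro rfl
      rw [zero_pow (by norm_num)] at hc
      exact hy hc.symm
    exact Sp.of_cube (by norm_num) hc0 hc.symm _
  · intro F _ _ _
    refine ⟨?_, fun hF => Sp_of_finrank_ne_one hmax F hF⟩
    apply finrank_pow_three hE F
    intro N hN
    exact Sp_of_finrank_ne_one hmax N hN

end SF
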