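import Pool.Agent.Helper399.ModK
import Pool.Agent.Helper399.ModE
import Pool.Agent.SF.Model

/-! MODULES K and E in the form of the interface (docs 318). -/

set_option autoImplicit false
set_option linter.all false

open Module FF

namespace SF

theorem exists_IsK : ∃ (k : Type) (_ : Field k) (_ : CharZero k) (z x : k), IsK k z x := by
  obtain ⟨k, _, _, z, x, hz, hx, hec⟩ := exists_k
  exact ⟨k, inferInstance, inferInstance, z, x, ⟨hz, hx, hec⟩⟩

theorem exists_IsE (k : Type) [Field k] [CharZero k] (z x : k) (hk : IsK k z x) :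
    ∃ (E : Type) (_ : Field E) (_ : Algebra (LaurentSeries k) E), IsE k x E := by
  obtain ⟨E, h1, h2, h3, h4⟩ := exists_E hk.notcube
  exact ⟨E, inferInstance, inferInstance, ⟨inferInstance, h1,
    fun E' _ _ hfin hne => (h4 E').2 hne, fun E' _ _ hfin => (h4 E').1⟩⟩

/-- `y` is not a cube in `E` -/
theorem IsE.not_cube {k : Type} [Field k] {x : k} {E : Type} [Field E] [CharZero E]
    [Algebra (LaurentSeries k) E] (hE : IsE k x E) :
    ¬ ∃ c : E, c ^ 3 = algebraMap (LaurentSeries k) E (yv k) := by
  rintro ⟨c, hc⟩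
  apply hE.nsp
  have hy : algebraMap (LaurentSeries k) E (yv k) ≠ 0 := by
    rw [Ne, map_eq_zero]
    exact HahnSeries.single_ne_zero one_ne_zero
  have hc0 : c ≠ 0 := by
    rintro rfl
    rw [zero_pow (by norm_num)] at hc
    exact hy hc.symm
  exact Sp.of_cube (by norm_num) hc0 hc.symm _

end SF
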