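import Mathlib

/-! (7.1) Descent of finite dimensional stable subspaces under a semilinear group action. -/

set_option autoImplicit false

namespace SF

open Module

theorem exists_invariant_basis {Om V H ι : Type*} [Field Om] [AddCommGroup V] [Module Om V]
    [Group H] [MulSemiringAction H Om] [DistribMulAction H V]
    (lam : ι → V →ₗ[Om] Om) (hequiv : ∀ i (h : H) v, lam i (h • v) = h • lam i v)
    (hsep : ∀ v, (∀ i, lam i v = 0) → v = 0)
    (W : Submodule Om V) [FiniteDimensional Om W] (hW : ∀ h : H, ∀ v ∈ W, h • v ∈ W) :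
    ∃ b : Basis (Fin (finrank Om W)) Om W, ∀ i (h : H), h • (b i : V) = b i := by
  classical
  -- the restrictions of the functionals span the dual
  let lamW : ι → Dual Om W := fun i => (lam i).comp W.subtype
  have hco : (Submodule.span Om (Set.range lamW)).dualCoannihilator = ⊥ := by
    rw [eq_bot_iff]
    intro w hw
    rw [Submodule.mem_dualCoannihilator] at hw
    rw [Submodule.mem_bot]
    apply Subtype.ext
    apply hsep
    intro i
    exact hw (lamW i) (Submodule.subset_span ⟨i, rfl⟩)
  have hspan : Submodule.span Om (Set.range lamW) = ⊤ := by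
    apply Submodule.eq_top_of_finrank_eq
    have h1 := Subspace.finrank_add_finrank_dualCoannihilator_eq
      (Submodule.span Om (Set.range lamW))
    rw [hco, finrank_bot, add_zero] at h1
    rw [h1, Subspace.dual_finrank_eq]
  let b0 := Basis.ofSpan hspan.ge
  have hb0 : ∀ i, ∃ j, b0 i = lamW j := fun i => by
    obtain ⟨j, hj⟩ := Basis.ofSpan_subset hspan.ge ⟨i, rfl⟩
    exact ⟨j, hj.symm⟩
  have : Fintype _ := FiniteDimensional.fintypeBasisIndex b0
  let b1 := b0.reindex (Fintype.equivFinOfCardEq
    ((finrank_eq_card_basis b0).symm.trans (Subspace.dual_finrank_eq (K := Om) (V := W))))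
  have hb1 : ∀ i, ∃ j, b1 i = lamW j := fun i => by
    simp only [b1, Basis.reindex_apply]
    exact hb0 _
  let w := b1.dualBasis.map (evalEquiv Om W).symm
  have hw : ∀ i j, b1 i (w j) = if i = j then 1 else 0 := by
    intro i j
    have h1 : b1 i (w j) = (evalEquiv Om W (w j)) (b1 i) := rfl
    rw [h1]
    simp only [w, Basis.map_apply, LinearEquiv.apply_symm_apply]
    rw [Basis.dualBasis_apply_self]
  refine ⟨w, ?_⟩
  intro j h
  have h1 : (⟨h • (w j : V), hW h _ (w j).2⟩ : W) = w j := by
    have h2 : ∀ φ : Dual Om W, φ (⟨h • (w j : V), hW h _ (w j).2⟩ : W) = φ (w j) := by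
      intro φ
      have h3 : ∀ i, b1 i (⟨h • (w j : V), hW h _ (w j).2⟩ : W) = b1 i (w j) := by
        intro i
        rw [hw i j]
        obtain ⟨l, hl⟩ := hb1 i
        have h4 : b1 i (w j) = lam l (w j : V) := by rw [hl]; rfl
        have h5 : b1 i (⟨h • (w j : V), hW h _ (w j).2⟩ : W) = lam l (h • (w j : V)) := by
          rw [hl]; rfl
        rw [h5, hequiv, ← h4, hw i j]
        split_ifs <;> simp
      rw [← b1.sum_repr φ]
      simp only [LinearMap.sum_apply, LinearMap.smul_apply, h3]
    rw [← sub_eq_zero, ← Module.forall_dual_apply_eq_zero_iff Om]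
    intro φ
    rw [map_sub, h2, sub_self]
  exact congrArg Subtype.val h1

end SF
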