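import Pool.Agent.Helper399.FF4a

/-! FF4, part b: cyclic cubic extensions. -/

set_option autoImplicit false
set_option linter.all false
set_option linter.overlappingInstances false

open Module FF

namespace FF

section
variable {k K K' : Type*} [Field k] [Field K] [Field K'] [Algebra k K] [Algebra k K'] [Algebra K K']
  [IsScalarTower k K K']

/-- A place regular on the valuation ring of `w0` and positive at a uniformiser lies over `w0`. -/
theorem over_of_reg (w : Place k K') (w0 : Place k K) (t : K) (ht0 : t ≠ 0) (ht : w0.ord t = 1)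
    (h1 : ∀ f : K, w0.Reg f → w.Reg (algebraMap K K' f)) (h2 : 0 < w.ord (algebraMap K K' t)) :
    Over w w0 (w.ord (algebraMap K K' t)).toNat := by
  refine ⟨by omega, fun f => ?_⟩
  by_cases hf : f = 0
  · subst hf
    rw [map_zero, w.ord_zero, w0.ord_zero, mul_zero]
  have hu0 : f * t ^ (-(w0.ord f)) ≠ 0 := mul_ne_zero hf (zpow_ne_zero _ ht0)
  have hu : w0.ord (f * t ^ (-(w0.ord f))) = 0 := by
    rw [w0.ord_mul hf (zpow_ne_zero _ ht0), w0.ord_zpow, ht]; ring
  have h3 := h1 _ (Or.inr hu.ge)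
  have h4 := h1 (f * t ^ (-(w0.ord f)))⁻¹ (Or.inr (by rw [w0.ord_inv, hu]; simp))
  have hu0' : algebraMap K K' (f * t ^ (-(w0.ord f))) ≠ 0 :=
    (map_ne_zero (algebraMap K K')).2 hu0
  have h5 : w.ord (algebraMap K K' (f * t ^ (-(w0.ord f)))) = 0 := by
    have h6 := (w.reg_iff hu0').1 h3
    rw [map_inv₀] at h4
    have h7 := (w.reg_iff (inv_ne_zero hu0')).1 h4
    rw [w.ord_inv] at h7
    omega
  have hf' : algebraMap K K' f ≠ 0 := by simpa using hf
  have ht' : algebraMap K K' t ≠ 0 := by simpa using ht0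
  rw [map_mul, map_zpow₀, w.ord_mul hf' (zpow_ne_zero _ ht'), w.ord_zpow] at h5
  have h6 : ((w.ord (algebraMap K K' t)).toNat : ℤ) = w.ord (algebraMap K K' t) := by omega
  rw [h6]
  linarith

/-- successive approximation -/
theorem approx (w : Place k K') (A : Subring K') (p : K') (hpA : p ∈ A) (hp0 : p ≠ 0)
    (hp : w.ord p = 1)
    (hA : ∀ f, w.Reg f → ∃ a ∈ A, w.Reg a ∧ w.red f = w.red a) (n : ℕ) :
    ∀ f, w.Reg f → ∃ a ∈ A, w.Reg a ∧ (f = a ∨ (n : ℤ) ≤ w.ord (f - a)) := by
  induction n with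
  | zero =>
    intro f hf
    refine ⟨0, A.zero_mem, w.reg_zero, ?_⟩
    rw [sub_zero]
    exact_mod_cast hf
  | succ n ih =>
    intro f hf
    obtain ⟨a, haA, har, ha⟩ := ih f hf
    by_cases hfa : f = a
    · exact ⟨a, haA, har, Or.inl hfa⟩
    have ha' := ha.resolve_left hfa
    have hfa0 : f - a ≠ 0 := sub_ne_zero.2 hfa
    have hpn : p ^ n ≠ 0 := pow_ne_zero _ hp0
    have hpn' : w.ord (p ^ n) = n := by rw [w.ord_pow, hp]; ring
    have hgr : w.Reg ((f - a) / p ^ n) := by
      right
      rw [w.ord_div hfa0 hpn, hpn']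
      omega
    obtain ⟨b, hbA, hbr, hb⟩ := hA _ hgr
    refine ⟨a + p ^ n * b, A.add_mem haA (A.mul_mem (A.pow_mem hpA n) hbA),
      w.reg_add har (w.reg_mul (Or.inr (by rw [hpn']; omega)) hbr), ?_⟩
    by_cases hgb : (f - a) / p ^ n = b
    · left
      rw [← hgb]
      field_simp
      ring
    · right
      have h1 : w.red ((f - a) / p ^ n - b) = 0 := by
        rw [w.red_sub hgr hbr, hb, sub_self]
      have hgbr : w.Reg ((f - a) / p ^ n - b) := by
        rw [sub_eq_add_neg]; exact w.reg_add hgr (w.reg_neg hbr)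
      rw [w.red_eq_zero_iff hgbr] at h1
      have h2 := h1.resolve_left (sub_ne_zero.2 hgb)
      have h3 : f - (a + p ^ n * b) = p ^ n * ((f - a) / p ^ n - b) := by
        field_simp
        ring
      rw [h3, w.ord_mul hpn (sub_ne_zero.2 hgb), hpn']
      push_cast
      omega

/-- an automorphism fixing `A` and the place is trivial if `A` approximates everything -/
theorem trivial_of_approx (w : Place k K') (s : K' ≃ₐ[k] K') (hw : w.comp s = w)
    (A : Subring K') (hsA : ∀ a ∈ A, s a = a) (p : K') (hpA : p ∈ A) (hp0 : p ≠ 0)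
    (hp : w.ord p = 1)
    (hA : ∀ f, w.Reg f → ∃ a ∈ A, w.Reg a ∧ w.red f = w.red a) (f : K') : s f = f := by
  have key : ∀ f, w.Reg f → s f = f := by
    intro f hf
    by_contra hne
    have hsub : s f - f ≠ 0 := sub_ne_zero.2 hne
    obtain ⟨a, haA, har, ha⟩ := approx w A p hpA hp0 hp hA ((w.ord (s f - f)).toNat + 1) f hf
    have hfa : f ≠ a := by
      rintro rfl
      exact hne (hsA _ haA)
    have ha' := ha.resolve_left hfa
    have hfa0 : f - a ≠ 0 := sub_ne_zero.2 hfa
    have h1 : s f - f = s (f - a) - (f - a) := by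
      rw [map_sub, hsA a haA]; ring
    have h2 : w.ord (s (f - a)) = w.ord (f - a) := by
      rw [← w.comp_ord s, hw]
    have h3 : s (f - a) ≠ 0 := (map_ne_zero_iff _ s.injective).2 hfa0
    have h4 := w.ord_sub h3 hfa0 (by rw [← h1]; exact hsub)
    rw [← h1, h2, min_self] at h4
    push_cast at ha'
    omega
  by_cases hf : f = 0
  · rw [hf, map_zero]
  rcases le_or_gt 0 (w.ord f) with h | h
  · exact key f (Or.inr h)
  · have h1 := key f⁻¹ (Or.inr (by rw [w.ord_inv]; omega))
    rw [map_inv₀] at h1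
    exact inv_injective h1

/-- The degree of the extension is 3. -/
theorem finrank_eq_three (s : K' ≃ₐ[k] K') (hs : ∀ f, s (s (s f)) = f)
    (hfix : ∀ f, s f = f ↔ f ∈ Set.range (algebraMap K K')) (hne : ∃ f, s f ≠ f) :
    finrank K K' = 3 := by
  classical
  have h1 : orderOf s = 3 := by
    apply orderOf_eq_prime
    · ext f
      show (s ^ 3) f = f
      have : (s ^ 3) f = s (s (s f)) := by
        rw [pow_succ, pow_two]; rfl
      rw [this, hs]
    · rintro rfl
      obtain ⟨f, hf⟩ := hne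
      exact hf rfl
  let G := Subgroup.zpowers s
  have hfin : Finite G := by
    apply Nat.finite_of_card_ne_zero
    rw [Nat.card_zpowers, h1]
    norm_num
  have : Fintype G := Fintype.ofFinite G
  have hcard : Fintype.card G = 3 := by
    rw [← Nat.card_eq_fintype_card, Nat.card_zpowers, h1]
  have h2 : finrank (FixedPoints.subfield G K') K' = 3 := by
    rw [FixedPoints.finrank_eq_card G K', hcard]
  rw [← h2]
  have hmem : ∀ f : K', f ∈ FixedPoints.subfield G K' ↔ s f = f := by
    intro f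
    constructor
    · intro h
      exact h ⟨s, Subgroup.mem_zpowers s⟩
    · rintro h ⟨g, hg⟩
      obtain ⟨n, rfl⟩ := Subgroup.mem_zpowers_iff.1 hg
      show (s ^ n) f = f
      have hst : s ∈ MulAction.stabilizer (K' ≃ₐ[k] K') f := h
      exact (MulAction.stabilizer (K' ≃ₐ[k] K') f).zpow_mem hst n
  let i0 : K →+* FixedPoints.subfield G K' := (algebraMap K K').codRestrict _ (fun c => by
    rw [hmem, hfix]; exact ⟨c, rfl⟩)
  have hi0 : Function.Bijective i0 := by
    refine ⟨i0.injective, ?_⟩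
    rintro ⟨f, hf⟩
    rw [hmem, hfix] at hf
    obtain ⟨c, hc⟩ := hf
    exact ⟨c, Subtype.ext hc⟩
  refine Algebra.finrank_eq_of_equiv_equiv (RingEquiv.ofBijective i0 hi0) (RingEquiv.refl K') ?_
  ext c
  rfl

/-- the residue degree -/
theorem relf_eq {w : Place k K'} {w0 : Place k K} {e : ℕ} (h : Over w w0 e) :
    @Place.relf k K' _ _ _ w w0.O _ ((algebraMap K K').comp w0.O.subtype).toAlgebra =
      @finrank w0.RF w.RF _ _ h.resMap.toRingHom.toAlgebra.toModule := by
  let _ : Algebra w0.O K' := ((algebraMap K K').comp w0.O.subtype).toAlgebra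
  let _ : Algebra w0.RF w.RF := h.resMap.toRingHom.toAlgebra
  unfold Place.relf
  have hmap : ∀ a : w0.O, w.red (algebraMap w0.O K' a) = h.resMap (w0.red a) := by
    intro a
    rw [h.resMap_red a.2]
    rfl
  have hcl : ∀ c, h.resMap c ∈ Subfield.closure
      (Set.range fun a : w0.O => w.red (algebraMap w0.O K' a)) := by
    intro c
    obtain ⟨f, hf, rfl⟩ := w0.red_surjective c
    apply Subfield.subset_closure
    exact ⟨⟨f, hf⟩, hmap ⟨f, hf⟩⟩
  let i0 : w0.RF →+* Subfield.closure (Set.range fun a : w0.O => w.red (algebraMap w0.O K' a)) :=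
    h.resMap.toRingHom.codRestrict _ hcl
  have hi0 : Function.Bijective i0 := by
    refine ⟨i0.injective, ?_⟩
    rintro ⟨c, hc⟩
    have h1 : Subfield.closure (Set.range fun a : w0.O => w.red (algebraMap w0.O K' a)) ≤
        h.resMap.toRingHom.fieldRange := by
      rw [Subfield.closure_le]
      rintro _ ⟨a, rfl⟩
      exact ⟨w0.red a, (hmap a).symm⟩
    obtain ⟨d, hd⟩ := h1 hc
    exact ⟨d, Subtype.ext hd⟩
  symm
  refine Algebra.finrank_eq_of_equiv_equiv (RingEquiv.ofBijective i0 hi0) (RingEquiv.refl _) ?_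
  ext c
  rfl

/-- residue degree one means surjective residue map -/
theorem resMap_surjective_of_finrank {w : Place k K'} {w0 : Place k K} {e : ℕ} (h : Over w w0 e)
    (h1 : @finrank w0.RF w.RF _ _ h.resMap.toRingHom.toAlgebra.toModule = 1) :
    Function.Surjective h.resMap := by
  let _ : Algebra w0.RF w.RF := h.resMap.toRingHom.toAlgebra
  have h2 : finrank w0.RF w.RF = 1 := h1
  have h3 : (⊥ : Subalgebra w0.RF w.RF) = ⊤ := by
    exact Subalgebra.bot_eq_top_of_finrank_eq_one h2
  intro c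
  have h4 : c ∈ (⊤ : Subalgebra w0.RF w.RF) := Algebra.mem_top
  rw [← h3, Algebra.mem_bot] at h4
  obtain ⟨d, hd⟩ := h4
  exact ⟨d, hd⟩

end

end FF
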