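import Pool.Agent.Helper399.Descent3

/-! The Laurent series field does not split `(y, x)`. -/

set_option autoImplicit false

namespace SF

open PowerSeries

theorem powerSeries_descent {k : Type*} [Field k] (x : k) (n : ℕ) :
    ∀ h0 h1 h2 : PowerSeries k, N3 (X : PowerSeries k) h0 h1 h2 = X ^ (3 * n) * C x →
      ∃ c : k, c ^ 3 = x := by
  induction n with
  | zero =>
    intro h0 h1 h2 h
    have h3 := congrArg (constantCoeff (R := k)) h
    simp [N3] at h3
    exact ⟨_, h3⟩
  | succ n ih =>
    intro h0 h1 h2 h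
    have hX : (X : PowerSeries k) ≠ 0 := X_ne_zero
    have hc : ∀ f : PowerSeries k, constantCoeff (R := k) (f ^ 3) = 0 → ∃ g, f = X * g := by
      intro f hf
      rw [map_pow] at hf
      have hf' : constantCoeff (R := k) f = 0 := by
        exact pow_eq_zero_iff (by norm_num) |>.1 hf
      exact X_dvd_iff.2 hf'
    -- first coordinate
    obtain ⟨g0, rfl⟩ : ∃ g, h0 = X * g := by
      apply hc
      have h4 : h0 ^ 3 = X * (X ^ (3 * n + 2) * C x - h1 ^ 3 - X * h2 ^ 3 + 3 * h0 * h1 * h2) := by
        have : X ^ (3 * (n + 1)) * C x = X * (X ^ (3 * n + 2) * C x) := by ring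
        rw [this] at h
        unfold N3 at h
        linear_combination h
      rw [h4]
      simp
    have h5 : X ^ 2 * g0 ^ 3 + h1 ^ 3 + X * h2 ^ 3 - 3 * X * g0 * h1 * h2 =
        X ^ (3 * n + 2) * C x := by
      apply mul_left_cancel₀ hX
      unfold N3 at h
      have : X ^ (3 * (n + 1)) * C x = X * (X ^ (3 * n + 2) * C x) := by ring
      rw [this] at h
      rw [← h]
      ring
    obtain ⟨g1, rfl⟩ : ∃ g, h1 = X * g := by
      apply hc
      have h6 : h1 ^ 3 = X * (X ^ (3 * n + 1) * C x - X * g0 ^ 3 - h2 ^ 3 + 3 * g0 * h1 * h2) := by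
        linear_combination h5
      rw [h6]
      simp
    have h7 : X * g0 ^ 3 + X ^ 2 * g1 ^ 3 + h2 ^ 3 - 3 * X * g0 * g1 * h2 =
        X ^ (3 * n + 1) * C x := by
      apply mul_left_cancel₀ hX
      linear_combination h5
    obtain ⟨g2, rfl⟩ : ∃ g, h2 = X * g := by
      apply hc
      have h8 : h2 ^ 3 = X * (X ^ (3 * n) * C x - g0 ^ 3 - X * g1 ^ 3 + 3 * g0 * g1 * h2) := by
        linear_combination h7
      rw [h8]
      simp
    apply ih g0 g1 g2
    apply mul_left_cancel₀ hX
    unfold N3
    linear_combination h7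


open Classical in
theorem laurent_not_Sp {k : Type*} [Field k] {x : k} (hx : ¬ ∃ c : k, c ^ 3 = x) :
    ¬ Sp (LaurentSeries k) (HahnSeries.single 1 1) (HahnSeries.C x) := by
  rintro ⟨g0, g1, g2, hg⟩
  apply hx
  -- common denominator
  obtain ⟨⟨_, n, rfl⟩, hn⟩ := IsLocalization.exist_integer_multiples_of_finset
    (Submonoid.powers (X : PowerSeries k)) ({g0, g1, g2} : Finset (LaurentSeries k))
  have h0 := hn g0 (by simp)
  have h1 := hn g1 (by simp)
  have h2 := hn g2 (by simp)
  obtain ⟨f0, hf0⟩ := h0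
  obtain ⟨f1, hf1⟩ := h1
  obtain ⟨f2, hf2⟩ := h2
  have hX : algebraMap (PowerSeries k) (LaurentSeries k) X = HahnSeries.single 1 1 := by
    show HahnSeries.ofPowerSeries ℤ k X = _
    exact HahnSeries.ofPowerSeries_X
  have hC : algebraMap (PowerSeries k) (LaurentSeries k) (C x) = HahnSeries.C x := by
    show HahnSeries.ofPowerSeries ℤ k (C x) = _
    exact HahnSeries.ofPowerSeries_C x
  apply powerSeries_descent x n f0 f1 f2
  have hinj : Function.Injective (algebraMap (PowerSeries k) (LaurentSeries k)) :=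
    IsFractionRing.injective _ _
  apply hinj
  rw [N3_map, hf0, hf1, hf2, hX, map_mul, map_pow, hC, hX, ← hg]
  simp only [Algebra.smul_def, map_pow, hX]
  unfold N3
  ring
end SF
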