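import Mathlib

set_option autoImplicit false

open PowerSeries Polynomial

namespace SF399

section newton

variable {κ : Type} [Field κ]

theorem eq_of_forall_dvd {a b : PowerSeries κ}
    (h : ∀ n : ℕ, (PowerSeries.X : PowerSeries κ) ^ n ∣ a - b) : a = b := by
  rw [← sub_eq_zero]
  ext n
  have := h (n + 1)
  rw [PowerSeries.X_pow_dvd_iff] at this
  rw [this n (Nat.lt_succ_self n)]
  simp

theorem dvd_eval_sub (Q : Polynomial (PowerSeries κ)) {n : ℕ} {a b : PowerSeries κ}
    (h : (PowerSeries.X : PowerSeries κ) ^ n ∣ a - b) :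
    (PowerSeries.X : PowerSeries κ) ^ n ∣ Q.eval a - Q.eval b :=
  h.trans (Polynomial.sub_dvd_eval_sub a b Q)

theorem fixpt (c : PowerSeries κ) (Q : Polynomial (PowerSeries κ)) :
    ∃ z : PowerSeries κ, z = c + PowerSeries.X * Q.eval z := by
  let F : PowerSeries κ → PowerSeries κ := fun z => c + PowerSeries.X * Q.eval z
  have hF : ∀ (n : ℕ) (a b : PowerSeries κ), (PowerSeries.X : PowerSeries κ) ^ n ∣ a - b →
      (PowerSeries.X : PowerSeries κ) ^ (n + 1) ∣ F a - F b := by
    intro n a b h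
    have : F a - F b = PowerSeries.X * (Q.eval a - Q.eval b) := by
      simp only [F]
      ring
    rw [this, pow_succ']
    exact mul_dvd_mul_left _ (dvd_eval_sub Q h)
  have hseq : ∀ n : ℕ, (PowerSeries.X : PowerSeries κ) ^ n ∣ F^[n + 1] 0 - F^[n] 0 := by
    intro n
    induction n with
    | zero => simp
    | succ n ih =>
      have e1 : F^[n + 1 + 1] 0 = F (F^[n + 1] 0) := Function.iterate_succ_apply' F (n + 1) 0
      have e2 : F^[n + 1] 0 = F (F^[n] 0) := Function.iterate_succ_apply' F n 0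
      have e3 := hF n _ _ ih
      rw [← e1, ← e2] at e3
      exact e3
  have hseq2 : ∀ m n : ℕ, n ≤ m → (PowerSeries.X : PowerSeries κ) ^ n ∣ F^[m] 0 - F^[n] 0 := by
    intro m n hnm
    induction m, hnm using Nat.le_induction with
    | base => simp
    | succ m hm ih =>
      have h1 := (pow_dvd_pow (PowerSeries.X : PowerSeries κ) hm).trans (hseq m)
      have : F^[m + 1] 0 - F^[n] 0 = (F^[m + 1] 0 - F^[m] 0) + (F^[m] 0 - F^[n] 0) := by ring
      rw [this]
      exact dvd_add h1 ih
  let z : PowerSeries κ := PowerSeries.mk fun n => PowerSeries.coeff n (F^[n + 1] 0)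
  have hz : ∀ n : ℕ, (PowerSeries.X : PowerSeries κ) ^ n ∣ z - F^[n] 0 := by
    intro n
    rw [PowerSeries.X_pow_dvd_iff]
    intro m hm
    have h1 := hseq2 n (m + 1) hm
    rw [PowerSeries.X_pow_dvd_iff] at h1
    have h2 := h1 m (Nat.lt_succ_self m)
    rw [map_sub] at h2
    rw [map_sub, PowerSeries.coeff_mk, ← sub_eq_zero.1 h2, sub_self]
  refine ⟨z, ?_⟩
  apply eq_of_forall_dvd
  intro n
  have h1 := hF n _ _ (hz n)
  rw [← Function.iterate_succ_apply' F n] at h1
  have h2 := (pow_dvd_pow (PowerSeries.X : PowerSeries κ) (Nat.le_succ n)).trans h1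
  have h3 := (pow_dvd_pow (PowerSeries.X : PowerSeries κ) (Nat.le_succ n)).trans (hz (n + 1))
  have : z - (c + PowerSeries.X * Q.eval z) = (z - F^[n + 1] 0) - (F z - F^[n + 1] 0) := by
    simp only [F]
    ring
  rw [this]
  exact dvd_sub h3 h2

/-- **Newton's lemma** in `κ[[X]]`. -/
theorem newton (G : Polynomial (PowerSeries κ)) (y0 : PowerSeries κ) (e m : ℕ) (hm : 2 * e < m)
    (h0 : (PowerSeries.X : PowerSeries κ) ^ m ∣ G.eval y0) (u : PowerSeries κ) (hu : IsUnit u)
    (h1 : G.derivative.eval y0 = PowerSeries.X ^ e * u) :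
    ∃ y1, G.eval y1 = 0 ∧ (PowerSeries.X : PowerSeries κ) ^ (m - e) ∣ y1 - y0 := by
  obtain ⟨a, ha⟩ := h0
  obtain ⟨v, rfl⟩ := hu
  set T := Polynomial.taylor y0 G with hT
  set S := T.divX.divX with hS
  have hTS : ∀ w, T.eval w = G.eval y0 + G.derivative.eval y0 * w + w ^ 2 * S.eval w := by
    intro w
    have h2 : T = T.divX * Polynomial.X + Polynomial.C (T.coeff 0) := (Polynomial.divX_mul_X_add T).symm
    have h3 : T.divX = S * Polynomial.X + Polynomial.C (T.divX.coeff 0) :=
      (Polynomial.divX_mul_X_add T.divX).symm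
    rw [Polynomial.coeff_divX] at h3
    have h4 : T.coeff 0 = G.eval y0 := Polynomial.taylor_coeff_zero y0 G
    have h5 : T.coeff (0 + 1) = G.derivative.eval y0 := Polynomial.taylor_coeff_one y0 G
    rw [h2, h3, h4, h5]
    simp
    ring
  obtain ⟨z, hz⟩ := fixpt (-(↑v⁻¹ : PowerSeries κ) * a)
    (Polynomial.C (-(↑v⁻¹ : PowerSeries κ) * PowerSeries.X ^ (m - 2 * e - 1)) * Polynomial.X ^ 2 *
      S.comp (Polynomial.C (PowerSeries.X ^ (m - e)) * Polynomial.X))
  refine ⟨y0 + PowerSeries.X ^ (m - e) * z, ?_, ?_⟩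
  · have h2 : G.eval (y0 + PowerSeries.X ^ (m - e) * z) = T.eval (PowerSeries.X ^ (m - e) * z) := by
      rw [hT, Polynomial.taylor_eval, add_comm]
    rw [h2, hTS, ha, h1]
    simp only [Polynomial.eval_mul, Polynomial.eval_C, Polynomial.eval_pow, Polynomial.eval_X,
      Polynomial.eval_comp] at hz
    set w := S.eval (PowerSeries.X ^ (m - e) * z) with hw
    have h3 : (v : PowerSeries κ) * z = - a - PowerSeries.X ^ (m - 2 * e) * z ^ 2 * w := by
      have h4 : (PowerSeries.X : PowerSeries κ) ^ (m - 2 * e) =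
          PowerSeries.X * PowerSeries.X ^ (m - 2 * e - 1) := by
        rw [← pow_succ']
        congr 1
        omega
      have h5 : (v : PowerSeries κ) * (↑v⁻¹ : PowerSeries κ) = 1 := Units.mul_inv v
      rw [h4]
      calc (v : PowerSeries κ) * z = (v : PowerSeries κ) * (-(↑v⁻¹ : PowerSeries κ) * a +
          PowerSeries.X * (-(↑v⁻¹ : PowerSeries κ) * PowerSeries.X ^ (m - 2 * e - 1) * z ^ 2 * w)) := by
            rw [← hz]
        _ = ((v : PowerSeries κ) * (↑v⁻¹ : PowerSeries κ)) * (-a -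
          PowerSeries.X * PowerSeries.X ^ (m - 2 * e - 1) * z ^ 2 * w) := by ring
        _ = _ := by rw [h5, one_mul]
    have e1 : (PowerSeries.X : PowerSeries κ) ^ e * PowerSeries.X ^ (m - e) = PowerSeries.X ^ m := by
      rw [← pow_add]
      congr 1
      omega
    have e2 : ((PowerSeries.X : PowerSeries κ) ^ (m - e)) ^ 2 =
        PowerSeries.X ^ m * PowerSeries.X ^ (m - 2 * e) := by
      rw [← pow_add, ← pow_mul]
      congr 1
      omega
    calc PowerSeries.X ^ m * a + PowerSeries.X ^ e * (v : PowerSeries κ) *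
        (PowerSeries.X ^ (m - e) * z) + (PowerSeries.X ^ (m - e) * z) ^ 2 * w =
        PowerSeries.X ^ m * a + (PowerSeries.X ^ e * PowerSeries.X ^ (m - e)) *
        ((v : PowerSeries κ) * z) + (PowerSeries.X ^ (m - e)) ^ 2 * z ^ 2 * w := by ring
      _ = 0 := by
        rw [e1, e2, h3]
        ring
  · rw [add_sub_cancel_left]
    exact Dvd.intro _ rfl

end newton

end SF399
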