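import Mathlib

set_option autoImplicit false

open PowerSeries Module

namespace SF399

section subst

variable {k κ : Type} [Field k] [Field κ] [Algebra k κ]

theorem exists_subst0 (f : PowerSeries κ) (hf : PowerSeries.constantCoeff f = 0) :
    ∃ φ0 : PowerSeries k →+* PowerSeries κ,
      (∀ c, φ0 (PowerSeries.C c) = PowerSeries.C (algebraMap k κ c)) ∧ φ0 PowerSeries.X = f := by
  have hs : PowerSeries.HasSubst f := HasSubst.of_constantCoeff_zero' hf
  refine ⟨(PowerSeries.substAlgHom (R := k) hs).toRingHom, ?_, ?_⟩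
  · intro c
    have h := (PowerSeries.substAlgHom (R := k) hs).commutes c
    rw [show (algebraMap k (MvPowerSeries Unit κ)) c = MvPowerSeries.C (algebraMap k κ c) from
      MvPowerSeries.algebraMap_apply] at h
    exact h
  · exact PowerSeries.substAlgHom_X hs

/-- a power series of order `N` is `X ^ N` times a unit -/
theorem exists_unit (f : PowerSeries κ) (N : ℕ) (hf : f.order = N) :
    ∃ u : PowerSeries κ, IsUnit u ∧ f = PowerSeries.X ^ N * u := by
  have h1 : (PowerSeries.X : PowerSeries κ) ^ N ∣ f := by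
    rw [PowerSeries.X_pow_dvd_iff]
    intro m hm
    apply PowerSeries.coeff_of_lt_order
    rw [hf]
    exact_mod_cast hm
  obtain ⟨u, hu⟩ := h1
  refine ⟨u, ?_, hu⟩
  rw [PowerSeries.isUnit_iff_constantCoeff, isUnit_iff_ne_zero]
  intro h0
  have h2 : PowerSeries.coeff N f ≠ 0 := by
    have := PowerSeries.coeff_order (φ := f) (by
      intro h
      rw [h, PowerSeries.order_zero] at hf
      exact absurd hf (by simp))
    rwa [hf] at this
  apply h2
  rw [hu]
  have := PowerSeries.coeff_X_pow_mul u N 0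
  rw [zero_add] at this
  rw [this, PowerSeries.coeff_zero_eq_constantCoeff_apply, h0]

variable {ι : Type} [Fintype ι]

/-- the combination of the candidate basis -/
noncomputable def comb0 (φ0 : PowerSeries k →+* PowerSeries κ) (b : ι → κ) (N : ℕ)
    (c : Fin N × ι → PowerSeries k) : PowerSeries κ :=
  ∑ p, φ0 (c p) * (PowerSeries.C (b p.2) * PowerSeries.X ^ (p.1 : ℕ))

theorem comb0_add (φ0 : PowerSeries k →+* PowerSeries κ) (b : ι → κ) (N : ℕ)
    (c d : Fin N × ι → PowerSeries k) :
    comb0 φ0 b N (fun p => c p + d p) = comb0 φ0 b N c + comb0 φ0 b N d := by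
  unfold comb0
  rw [← Finset.sum_add_distrib]
  apply Finset.sum_congr rfl
  intro p _
  rw [map_add, add_mul]

theorem comb0_mul (φ0 : PowerSeries k →+* PowerSeries κ) (b : ι → κ) (N : ℕ)
    (g : PowerSeries k) (c : Fin N × ι → PowerSeries k) :
    comb0 φ0 b N (fun p => g * c p) = φ0 g * comb0 φ0 b N c := by
  unfold comb0
  rw [Finset.mul_sum]
  apply Finset.sum_congr rfl
  intro p _
  rw [map_mul, mul_assoc]

/-- the polynomial part -/
theorem comb0_C {φ0 : PowerSeries k →+* PowerSeries κ}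
    (hC : ∀ c, φ0 (PowerSeries.C c) = PowerSeries.C (algebraMap k κ c)) (b : ι → κ) (N : ℕ)
    (a : Fin N × ι → k) :
    comb0 φ0 b N (fun p => PowerSeries.C (a p)) =
      ∑ j : Fin N, PowerSeries.C (∑ i, a (j, i) • b i) * PowerSeries.X ^ (j : ℕ) := by
  unfold comb0
  rw [Fintype.sum_prod_type]
  apply Finset.sum_congr rfl
  intro j _
  rw [map_sum, Finset.sum_mul]
  apply Finset.sum_congr rfl
  intro i _
  rw [hC, ← mul_assoc, ← map_mul, Algebra.smul_def]

theorem coeff_sum_C_mul_X_pow {N : ℕ} (a : Fin N → κ) (m : Fin N) :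
    PowerSeries.coeff (m : ℕ) (∑ j : Fin N, PowerSeries.C (a j) * PowerSeries.X ^ (j : ℕ)) = a m := by
  rw [map_sum, Finset.sum_eq_single m]
  · rw [PowerSeries.coeff_C_mul, PowerSeries.coeff_X_pow_self, mul_one]
  · intro j _ hj
    rw [PowerSeries.coeff_C_mul, PowerSeries.coeff_X_pow, if_neg, mul_zero]
    intro h
    exact hj (Fin.ext h.symm)
  · intro h; exact absurd (Finset.mem_univ m) h

theorem step_inj {φ0 : PowerSeries k →+* PowerSeries κ}
    (hC : ∀ c, φ0 (PowerSeries.C c) = PowerSeries.C (algebraMap k κ c)) {f : PowerSeries κ}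
    (hX : φ0 PowerSeries.X = f) {N : ℕ} (hf : f.order = N) {b : ι → κ}
    (hb : LinearIndependent k b) (c : Fin N × ι → PowerSeries k) (h0 : comb0 φ0 b N c = 0) :
    ∃ c' : Fin N × ι → PowerSeries k, (∀ p, c p = PowerSeries.X * c' p) ∧ comb0 φ0 b N c' = 0 := by
  obtain ⟨u, hu, hfu⟩ := exists_unit f N hf
  have hdec : ∀ p, ∃ c', c p = PowerSeries.C (PowerSeries.constantCoeff (c p)) + PowerSeries.X * c' := by
    intro p
    have : (PowerSeries.X : PowerSeries k) ∣ c p - PowerSeries.C (PowerSeries.constantCoeff (c p)) := by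
      rw [PowerSeries.X_dvd_iff]
      simp
    obtain ⟨c', hc'⟩ := this
    exact ⟨c', by rw [← hc']; ring⟩
  choose c' hc' using hdec
  have h1 : comb0 φ0 b N c = comb0 φ0 b N (fun p => PowerSeries.C (PowerSeries.constantCoeff (c p))) +
      f * comb0 φ0 b N c' := by
    rw [← hX, ← comb0_mul, ← comb0_add]
    congr 1
    funext p
    exact hc' p
  have h2 : ∀ p, PowerSeries.constantCoeff (c p) = 0 := by
    rintro ⟨m, i⟩
    rw [comb0_C hC, h0] at h1
    have h3 := congrArg (PowerSeries.coeff (m : ℕ)) h1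
    rw [map_add, map_zero, coeff_sum_C_mul_X_pow (fun j => ∑ i, (PowerSeries.constantCoeff (c (j, i))) • b i),
      hfu, mul_assoc, PowerSeries.coeff_X_pow_mul', if_neg (by have := m.2; omega), add_zero] at h3
    have h4 := Fintype.linearIndependent_iff.1 hb (fun i => PowerSeries.constantCoeff (c (m, i))) h3.symm
    exact h4 i
  have hne : f ≠ 0 := by
    intro h
    rw [h, PowerSeries.order_zero] at hf
    exact absurd hf (by simp)
  refine ⟨c', ?_, ?_⟩
  · intro p
    rw [hc' p, h2 p]
    simp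
  · have h5 : comb0 φ0 b N (fun p => PowerSeries.C (PowerSeries.constantCoeff (c p))) = 0 := by
      unfold comb0
      apply Finset.sum_eq_zero
      intro p _
      show φ0 (PowerSeries.C (PowerSeries.constantCoeff (c p))) * _ = 0
      rw [h2 p, map_zero, map_zero, zero_mul]
    rw [h5, zero_add, h0] at h1
    exact (mul_eq_zero.1 h1.symm).resolve_left hne

theorem comb0_inj {φ0 : PowerSeries k →+* PowerSeries κ}
    (hC : ∀ c, φ0 (PowerSeries.C c) = PowerSeries.C (algebraMap k κ c)) {f : PowerSeries κ}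
    (hX : φ0 PowerSeries.X = f) {N : ℕ} (hf : f.order = N) {b : ι → κ}
    (hb : LinearIndependent k b) (c : Fin N × ι → PowerSeries k) (h0 : comb0 φ0 b N c = 0) :
    ∀ p, c p = 0 := by
  have key : ∀ (n : ℕ) (c : Fin N × ι → PowerSeries k), comb0 φ0 b N c = 0 →
      ∀ p, (PowerSeries.X : PowerSeries k) ^ n ∣ c p := by
    intro n
    induction n with
    | zero => intro c _ p; simp
    | succ n ih =>
      intro c hc p
      obtain ⟨c', hc', hc'0⟩ := step_inj hC hX hf hb c hc
      rw [hc' p, pow_succ']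
      exact mul_dvd_mul_left _ (ih c' hc'0 p)
  intro p
  ext n
  have := key (n + 1) c h0 p
  rw [PowerSeries.X_pow_dvd_iff] at this
  rw [this n (Nat.lt_succ_self n)]
  simp

theorem step_surj {φ0 : PowerSeries k →+* PowerSeries κ}
    (hC : ∀ c, φ0 (PowerSeries.C c) = PowerSeries.C (algebraMap k κ c)) {f : PowerSeries κ}
    {N : ℕ} (hf : f.order = N) (b : Basis ι k κ) (g : PowerSeries κ) :
    ∃ (a : Fin N × ι → k) (g' : PowerSeries κ),
      g = comb0 φ0 b N (fun p => PowerSeries.C (a p)) + f * g' := by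
  obtain ⟨u, hu, hfu⟩ := exists_unit f N hf
  refine ⟨fun p => b.repr (PowerSeries.coeff (p.1 : ℕ) g) p.2, ?_⟩
  rw [comb0_C hC]
  simp only [b.sum_repr]
  have hdvd : (PowerSeries.X : PowerSeries κ) ^ N ∣
      g - ∑ j : Fin N, PowerSeries.C (PowerSeries.coeff (j : ℕ) g) * PowerSeries.X ^ (j : ℕ) := by
    rw [PowerSeries.X_pow_dvd_iff]
    intro m hm
    have := coeff_sum_C_mul_X_pow (fun j : Fin N => PowerSeries.coeff (j : ℕ) g) ⟨m, hm⟩
    rw [map_sub]
    simp only at this
    rw [this, sub_self]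
  obtain ⟨h, hh⟩ := hdvd
  obtain ⟨v, hv⟩ := hu
  refine ⟨(↑v⁻¹ : PowerSeries κ) * h, ?_⟩
  have h1 : f * ((↑v⁻¹ : PowerSeries κ) * h) = PowerSeries.X ^ N * h := by
    rw [hfu, ← hv]
    calc PowerSeries.X ^ N * (v : PowerSeries κ) * ((↑v⁻¹ : PowerSeries κ) * h) =
        PowerSeries.X ^ N * ((v : PowerSeries κ) * (↑v⁻¹ : PowerSeries κ)) * h := by ring
      _ = _ := by rw [Units.mul_inv, mul_one]
  rw [h1, ← hh]
  ring

theorem comb0_surj {φ0 : PowerSeries k →+* PowerSeries κ}
    (hC : ∀ c, φ0 (PowerSeries.C c) = PowerSeries.C (algebraMap k κ c)) {f : PowerSeries κ}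
    (hX : φ0 PowerSeries.X = f) {N : ℕ} (hN : 0 < N) (hf : f.order = N) (b : Basis ι k κ)
    (g : PowerSeries κ) : ∃ c, comb0 φ0 b N c = g := by
  choose a g' hstep using step_surj (φ0 := φ0) hC hf b
  obtain ⟨u, hu, hfu⟩ := exists_unit f N hf
  set G : ℕ → PowerSeries κ := fun n => g'^[n] g with hG
  set c : ℕ → Fin N × ι → PowerSeries k := fun m p => PowerSeries.mk (fun n => a (G (n + m)) p) with hc
  have hcs : ∀ m p, c m p = PowerSeries.C (a (G m) p) + PowerSeries.X * c (m + 1) p := by
    intro m p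
    ext n
    cases n with
    | zero => simp [hc]
    | succ n =>
      rw [map_add, PowerSeries.coeff_succ_X_mul, PowerSeries.coeff_C, if_neg (Nat.succ_ne_zero n),
        zero_add]
      simp only [hc, PowerSeries.coeff_mk]
      congr 2
      ring
  have hD : ∀ m, G m - comb0 φ0 b N (c m) = f * (G (m + 1) - comb0 φ0 b N (c (m + 1))) := by
    intro m
    have h1 : comb0 φ0 b N (c m) = comb0 φ0 b N (fun p => PowerSeries.C (a (G m) p)) +
        f * comb0 φ0 b N (c (m + 1)) := by
      rw [← hX, ← comb0_mul, ← comb0_add]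
      congr 1
      funext p
      exact hcs m p
    have h2 : G m = comb0 φ0 b N (fun p => PowerSeries.C (a (G m) p)) + f * G (m + 1) := by
      have h3 : G (m + 1) = g' (G m) := by
        simp only [hG]
        rw [Function.iterate_succ_apply']
      rw [h3]
      exact hstep (G m)
    rw [h1]
    nth_rewrite 1 [h2]
    ring
  have hD2 : ∀ n m, f ^ n ∣ G m - comb0 φ0 b N (c m) := by
    intro n
    induction n with
    | zero => intro m; simp
    | succ n ih =>
      intro m
      rw [hD m, pow_succ']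
      exact mul_dvd_mul_left _ (ih (m + 1))
  refine ⟨c 0, ?_⟩
  have h0 : G 0 = g := rfl
  symm
  rw [← sub_eq_zero]
  ext n
  have h1 : (PowerSeries.X : PowerSeries κ) ∣ f := by
    rw [hfu]
    exact Dvd.dvd.mul_right (dvd_pow_self _ hN.ne') _
  have h2 := (pow_dvd_pow_of_dvd h1 (n + 1)).trans (hD2 (n + 1) 0)
  rw [PowerSeries.X_pow_dvd_iff] at h2
  rw [← h0, h2 n (Nat.lt_succ_self n)]
  simp

theorem subst0_injective {φ0 : PowerSeries k →+* PowerSeries κ}
    (hC : ∀ c, φ0 (PowerSeries.C c) = PowerSeries.C (algebraMap k κ c)) {f : PowerSeries κ}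
    (hX : φ0 PowerSeries.X = f) {N : ℕ} (hN : 0 < N) (hf : f.order = N) :
    Function.Injective φ0 := by
  rw [injective_iff_map_eq_zero]
  intro g hg
  have : Nonempty (Fin N) := ⟨⟨0, hN⟩⟩
  have hb : LinearIndependent k (fun _ : Unit => (1 : κ)) := by
    rw [linearIndependent_unique_iff]
    exact one_ne_zero
  have := comb0_inj hC hX hf hb (fun p => if p.1 = ⟨0, hN⟩ then g else 0) (by
    unfold comb0
    apply Finset.sum_eq_zero
    intro p _
    show φ0 (if p.1 = ⟨0, hN⟩ then g else 0) * _ = 0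
    split_ifs
    · rw [hg, zero_mul]
    · rw [map_zero, zero_mul]) (⟨0, hN⟩, ())
  simpa using this

/-- extension to Laurent series -/
theorem exists_laurent (φ0 : PowerSeries k →+* PowerSeries κ) (hinj : Function.Injective φ0) :
    ∃ φ : LaurentSeries k →+* LaurentSeries κ,
      ∀ g : PowerSeries k, φ (g : LaurentSeries k) = ((φ0 g : PowerSeries κ) : LaurentSeries κ) := by
  have h0 : Function.Injective (HahnSeries.ofPowerSeries ℤ κ) :=
    HahnSeries.ofPowerSeries_injective
  have h1 : Function.Injective ((HahnSeries.ofPowerSeries ℤ κ).comp φ0) := by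
    intro a b h
    rw [RingHom.comp_apply, RingHom.comp_apply] at h
    exact hinj (h0 h)
  refine ⟨IsFractionRing.lift (A := PowerSeries k) (K := LaurentSeries k)
    (g := (HahnSeries.ofPowerSeries ℤ κ).comp φ0) h1, ?_⟩
  intro g
  have h2 := IsFractionRing.lift_algebraMap (A := PowerSeries k) (K := LaurentSeries k) h1 g
  rw [LaurentSeries.coe_algebraMap] at h2
  rw [h2, RingHom.comp_apply]

/-- the Laurent version of the combination -/
noncomputable def combL (φ : LaurentSeries k →+* LaurentSeries κ) (b : ι → κ) (N : ℕ)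
    (c : Fin N × ι → LaurentSeries k) : LaurentSeries κ :=
  ∑ p, φ (c p) * HahnSeries.ofPowerSeries ℤ κ (PowerSeries.C (b p.2) * PowerSeries.X ^ (p.1 : ℕ))

theorem combL_coe {φ0 : PowerSeries k →+* PowerSeries κ} {φ : LaurentSeries k →+* LaurentSeries κ}
    (hφ : ∀ g : PowerSeries k, φ (g : LaurentSeries k) = ((φ0 g : PowerSeries κ) : LaurentSeries κ))
    (b : ι → κ) (N : ℕ) (c : Fin N × ι → PowerSeries k) :
    combL φ b N (fun p => (c p : LaurentSeries k)) = ((comb0 φ0 b N c : PowerSeries κ) : LaurentSeries κ) := by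
  unfold combL comb0
  rw [map_sum]
  apply Finset.sum_congr rfl
  intro p _
  rw [hφ, ← map_mul]

theorem combL_mul (φ : LaurentSeries k →+* LaurentSeries κ) (b : ι → κ) (N : ℕ)
    (g : LaurentSeries k) (c : Fin N × ι → LaurentSeries k) :
    combL φ b N (fun p => g * c p) = φ g * combL φ b N c := by
  unfold combL
  rw [Finset.mul_sum]
  apply Finset.sum_congr rfl
  intro p _
  rw [map_mul, mul_assoc]

theorem combL_inj {φ0 : PowerSeries k →+* PowerSeries κ}
    (hC : ∀ c, φ0 (PowerSeries.C c) = PowerSeries.C (algebraMap k κ c)) {f : PowerSeries κ}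
    (hX : φ0 PowerSeries.X = f) {N : ℕ} (hf : f.order = N) {b : ι → κ}
    (hb : LinearIndependent k b) {φ : LaurentSeries k →+* LaurentSeries κ}
    (hφ : ∀ g : PowerSeries k, φ (g : LaurentSeries k) = ((φ0 g : PowerSeries κ) : LaurentSeries κ))
    (c : Fin N × ι → LaurentSeries k) (h0 : combL φ b N c = 0) : ∀ p, c p = 0 := by
  obtain ⟨d, hd⟩ := IsLocalization.exist_integer_multiples_of_finite (nonZeroDivisors (PowerSeries k)) c
  choose c' hc' using hd
  have hd0 : ((d : PowerSeries k) : LaurentSeries k) ≠ 0 := by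
    intro h
    have : (d : PowerSeries k) = 0 := by
      apply HahnSeries.ofPowerSeries_injective (Γ := ℤ)
      rw [h, map_zero]
    exact nonZeroDivisors.coe_ne_zero d this
  have h1 : ∀ p, ((c' p : PowerSeries k) : LaurentSeries k) = ((d : PowerSeries k) : LaurentSeries k) * c p := by
    intro p
    have := hc' p
    rw [LaurentSeries.coe_algebraMap, Algebra.smul_def, LaurentSeries.coe_algebraMap] at this
    exact this
  have h2 : comb0 φ0 b N c' = 0 := by
    apply HahnSeries.ofPowerSeries_injective (Γ := ℤ)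
    rw [← combL_coe hφ, map_zero]
    have : (fun p => ((c' p : PowerSeries k) : LaurentSeries k)) =
      fun p => ((d : PowerSeries k) : LaurentSeries k) * c p := funext h1
    rw [this, combL_mul, h0, mul_zero]
  intro p
  have h3 := comb0_inj hC hX hf hb c' h2 p
  have h4 := h1 p
  rw [h3, map_zero] at h4
  exact (mul_eq_zero.1 h4.symm).resolve_left hd0

theorem combL_surj {φ0 : PowerSeries k →+* PowerSeries κ}
    (hC : ∀ c, φ0 (PowerSeries.C c) = PowerSeries.C (algebraMap k κ c)) {f : PowerSeries κ}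
    (hX : φ0 PowerSeries.X = f) {N : ℕ} (hN : 0 < N) (hf : f.order = N) (b : Basis ι k κ)
    {φ : LaurentSeries k →+* LaurentSeries κ}
    (hφ : ∀ g : PowerSeries k, φ (g : LaurentSeries k) = ((φ0 g : PowerSeries κ) : LaurentSeries κ))
    (g : LaurentSeries κ) : ∃ c, combL φ b N c = g := by
  obtain ⟨u, hu, hfu⟩ := exists_unit f N hf
  obtain ⟨⟨h, ⟨x, hx⟩⟩, hgh⟩ := IsLocalization.surj
    (Submonoid.powers (PowerSeries.X : PowerSeries κ)) g
  obtain ⟨n, rfl⟩ := hx
  simp only at hgh
  rw [LaurentSeries.coe_algebraMap] at hgh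
  obtain ⟨c', hc'⟩ := comb0_surj hC hX hN hf b (h * (PowerSeries.X ^ ((N - 1) * n) * u ^ n))
  have hfn : (f : PowerSeries κ) ^ n = PowerSeries.X ^ n * (PowerSeries.X ^ ((N - 1) * n) * u ^ n) := by
    rw [hfu, mul_pow, ← mul_assoc, ← pow_add, ← pow_mul]
    congr 2
    obtain ⟨M, rfl⟩ : ∃ M, N = M + 1 := ⟨N - 1, by omega⟩
    simp
    ring
  have hX0 : (((PowerSeries.X : PowerSeries k) ^ n : PowerSeries k) : LaurentSeries k) ≠ 0 := by
    intro h
    have h2 : (PowerSeries.X : PowerSeries k) ^ n = 0 := by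
      apply HahnSeries.ofPowerSeries_injective (Γ := ℤ)
      rw [h, map_zero]
    exact pow_ne_zero n PowerSeries.X_ne_zero h2
  have h3 : combL φ b N (fun p => (c' p : LaurentSeries k)) = φ ((((PowerSeries.X : PowerSeries k) ^ n : PowerSeries k)) : LaurentSeries k) * g := by
    rw [combL_coe hφ, hc', hφ, map_pow, hX, hfn, map_mul, map_mul _ (PowerSeries.X ^ n), ← hgh]
    ring
  refine ⟨fun p => ((((PowerSeries.X : PowerSeries k) ^ n : PowerSeries k)) : LaurentSeries k)⁻¹ * (c' p : LaurentSeries k), ?_⟩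
  rw [combL_mul, h3, ← mul_assoc, ← map_mul, inv_mul_cancel₀ hX0, map_one, one_mul]

end subst

/-- The field `κ((t))` as an algebra over `k((y))` through the substitution `φ`. -/
def Psi {k κ : Type} [Field k] [Field κ] (_ : LaurentSeries k →+* LaurentSeries κ) : Type :=
  LaurentSeries κ

noncomputable instance {k κ : Type} [Field k] [Field κ] (φ : LaurentSeries k →+* LaurentSeries κ) :
    Field (Psi φ) := inferInstanceAs (Field (LaurentSeries κ))

/-- the tautological isomorphism -/
def Psi.equiv {k κ : Type} [Field k] [Field κ] (φ : LaurentSeries k →+* LaurentSeries κ) :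
    LaurentSeries κ ≃+* Psi φ := RingEquiv.refl (LaurentSeries κ)

noncomputable instance {k κ : Type} [Field k] [Field κ] (φ : LaurentSeries k →+* LaurentSeries κ) :
    Algebra (LaurentSeries k) (Psi φ) := ((Psi.equiv φ).toRingHom.comp φ).toAlgebra

theorem Psi.algebraMap_eq {k κ : Type} [Field k] [Field κ]
    (φ : LaurentSeries k →+* LaurentSeries κ) (g : LaurentSeries k) :
    algebraMap (LaurentSeries k) (Psi φ) g = Psi.equiv φ (φ g) := rfl

section fin

variable {k κ : Type} [Field k] [Field κ] [Algebra k κ] {ι : Type} [Fintype ι]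

theorem Psi.exists_linearEquiv {φ0 : PowerSeries k →+* PowerSeries κ}
    (hC : ∀ c, φ0 (PowerSeries.C c) = PowerSeries.C (algebraMap k κ c)) {f : PowerSeries κ}
    (hX : φ0 PowerSeries.X = f) {N : ℕ} (hN : 0 < N) (hf : f.order = N) (b : Basis ι k κ)
    {φ : LaurentSeries k →+* LaurentSeries κ}
    (hφ : ∀ g : PowerSeries k, φ (g : LaurentSeries k) = ((φ0 g : PowerSeries κ) : LaurentSeries κ)) :
    Nonempty ((Fin N × ι → LaurentSeries k) ≃ₗ[LaurentSeries k] Psi φ) := by
  let T : (Fin N × ι → LaurentSeries k) →ₗ[LaurentSeries k] Psi φ :=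
    { toFun := fun c => Psi.equiv φ (combL φ b N c)
      map_add' := by
        intro c d
        rw [← map_add]
        congr 1
        unfold combL
        rw [← Finset.sum_add_distrib]
        apply Finset.sum_congr rfl
        intro p _
        rw [Pi.add_apply, map_add, add_mul]
      map_smul' := by
        intro g c
        have h1 : combL φ b N (g • c) = φ g * combL φ b N c := combL_mul φ b N g c
        rw [h1, map_mul, RingHom.id_apply, Algebra.smul_def, Psi.algebraMap_eq] }
  refine ⟨LinearEquiv.ofBijective T ⟨?_, ?_⟩⟩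
  · rw [← LinearMap.ker_eq_bot, LinearMap.ker_eq_bot']
    intro c hc
    have h1 : combL φ b N c = 0 := (Psi.equiv φ).injective (by rw [map_zero]; exact hc)
    funext p
    exact combL_inj hC hX hf b.linearIndependent hφ c h1 p
  · intro g
    obtain ⟨c, hc⟩ := combL_surj hC hX hN hf b hφ ((Psi.equiv φ).symm g)
    refine ⟨c, ?_⟩
    show Psi.equiv φ (combL φ b N c) = g
    rw [hc, RingEquiv.apply_symm_apply]

theorem Psi.finite [FiniteDimensional k κ] {φ0 : PowerSeries k →+* PowerSeries κ}
    (hC : ∀ c, φ0 (PowerSeries.C c) = PowerSeries.C (algebraMap k κ c)) {f : PowerSeries κ}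
    (hX : φ0 PowerSeries.X = f) {N : ℕ} (hN : 0 < N) (hf : f.order = N)
    {φ : LaurentSeries k →+* LaurentSeries κ}
    (hφ : ∀ g : PowerSeries k, φ (g : LaurentSeries k) = ((φ0 g : PowerSeries κ) : LaurentSeries κ)) :
    FiniteDimensional (LaurentSeries k) (Psi φ) := by
  obtain ⟨e⟩ := Psi.exists_linearEquiv hC hX hN hf (Module.finBasis k κ) hφ
  exact Module.Finite.equiv e

theorem Psi.finrank [FiniteDimensional k κ] {φ0 : PowerSeries k →+* PowerSeries κ}
    (hC : ∀ c, φ0 (PowerSeries.C c) = PowerSeries.C (algebraMap k κ c)) {f : PowerSeries κ}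
    (hX : φ0 PowerSeries.X = f) {N : ℕ} (hN : 0 < N) (hf : f.order = N)
    {φ : LaurentSeries k →+* LaurentSeries κ}
    (hφ : ∀ g : PowerSeries k, φ (g : LaurentSeries k) = ((φ0 g : PowerSeries κ) : LaurentSeries κ)) :
    finrank (LaurentSeries k) (Psi φ) = N * finrank k κ := by
  obtain ⟨e⟩ := Psi.exists_linearEquiv hC hX hN hf (Module.finBasis k κ) hφ
  rw [← e.finrank_eq, Module.finrank_pi]
  simp

/-- **Substitution.** For a power series `f` of order `N > 0` over a finite extension `κ` of `k`,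
there is a ring homomorphism `φ : k((y)) → κ((t))`, `y ↦ f`, extending a ring homomorphism
`φ0 : k[[y]] → κ[[t]]`; it has degree `N * [κ : k]`. -/
theorem exists_substitution (k κ : Type) [Field k] [Field κ] [Algebra k κ] [FiniteDimensional k κ]
    (f : PowerSeries κ) (N : ℕ) (hN : 0 < N) (hf : f.order = N) :
    ∃ (φ0 : PowerSeries k →+* PowerSeries κ) (φ : LaurentSeries k →+* LaurentSeries κ),
      (∀ c, φ0 (PowerSeries.C c) = PowerSeries.C (algebraMap k κ c)) ∧ φ0 PowerSeries.X = f ∧
      (∀ g : PowerSeries k, φ (g : LaurentSeries k) = ((φ0 g : PowerSeries κ) : LaurentSeries κ)) ∧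
      FiniteDimensional (LaurentSeries k) (Psi φ) ∧
      finrank (LaurentSeries k) (Psi φ) = N * finrank k κ := by
  have hf0 : PowerSeries.constantCoeff f = 0 := by
    rw [← PowerSeries.coeff_zero_eq_constantCoeff_apply]
    apply PowerSeries.coeff_of_lt_order
    rw [hf]
    exact_mod_cast hN
  obtain ⟨φ0, hC, hX⟩ := exists_subst0 (k := k) f hf0
  obtain ⟨φ, hφ⟩ := exists_laurent φ0 (subst0_injective hC hX hN hf)
  exact ⟨φ0, φ, hC, hX, hφ, Psi.finite hC hX hN hf hφ, Psi.finrank hC hX hN hf hφ⟩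

end fin

end SF399
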